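import Mathlib
import Pool.Agent.R729.Accurate.Core

/-!
# The accurate domination number of partition coronas exceeds `|V_G|` by arbitrarily much

Example: `G` is the complete graph on the points of a projective plane of order `q` and
`Q(v) = { l \ {v} : l a line through v }`. Then `γ_a(G ∘ Q) ≥ |V_G| + q`.
-/

open Finset

namespace Pool.Agent.Results.MP_a24849_co.Unbounded

open Pool.Agent.R729.Accurate

/-- For every vertex `v`, `Q v` is a partition of the neighbourhood of `v` into nonempty blocks. -/
def IsPartitionFamily {V : Type} (G : SimpleGraph V) (Q : V → Set (Set V)) : Prop :=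
  ∀ v, (∀ A ∈ Q v, A.Nonempty) ∧ (∀ A ∈ Q v, ∀ B ∈ Q v, A ≠ B → Disjoint A B) ∧
    ⋃₀ Q v = G.neighborSet v

/-- The `Q`-corona of `G`. The vertex `inl v` is the vertex `(v,1)` of the problem and `inr (v,A)`,
`A ∈ Q v`, is the vertex `(v,A)`; `(v,1)` is adjacent to all `(v,A)`, and `(v,A)`, `(u,B)` are
adjacent if `uv` is an edge of `G` with `u ∈ A` and `v ∈ B`. -/
def corona {V : Type} (G : SimpleGraph V) (Q : V → Set (Set V)) :
    SimpleGraph (V ⊕ {x : V × Set V // x.2 ∈ Q x.1}) where
  Adj x y := match x, y with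
    | .inl _, .inl _ => False
    | .inl v, .inr b => b.1.1 = v
    | .inr a, .inl v => a.1.1 = v
    | .inr a, .inr b => G.Adj a.1.1 b.1.1 ∧ b.1.1 ∈ a.1.2 ∧ a.1.1 ∈ b.1.2
  symm := ⟨by
    intro x y h
    rcases x with v | a <;> rcases y with w | b
    · exact h
    · exact h
    · exact h
    · exact ⟨h.1.symm, h.2.2, h.2.1⟩⟩
  loopless := ⟨by
    intro x h
    rcases x with v | a
    · exact h
    · exact G.loopless.irrefl _ h.1⟩

/-- `D` is a dominating set of `H`. -/
def IsDominating {W : Type} (H : SimpleGraph W) (D : Finset W) : Prop :=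
  ∀ w, w ∉ D → ∃ d ∈ D, H.Adj d w

/-- `D` is an accurate dominating set of `H`: no dominating set with exactly `|D|` elements is
disjoint from `D`. -/
def IsAccurate {W : Type} (H : SimpleGraph W) (D : Finset W) : Prop :=
  IsDominating H D ∧ ∀ D' : Finset W, Disjoint D' D → D'.card = D.card → ¬ IsDominating H D'

/-- The accurate domination number `γ_a(H)`. -/
noncomputable def accDomNum {W : Type} (H : SimpleGraph W) : ℕ :=
  sInf {n | ∃ D : Finset W, IsAccurate H D ∧ D.card = n}

section Plane

variable {P L : Type} [Fintype P] [Fintype L] {I : P → L → Prop} {q : ℕ}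

/-- the line `l` without the point `v` -/
def blk (I : P → L → Prop) (v : P) (l : L) : Set P := {u | I u l ∧ u ≠ v}

/-- the partition of the points different from `v` by the lines through `v` -/
def blocks (I : P → L → Prop) (v : P) : Set (Set P) := {A | ∃ l, I v l ∧ A = blk I v l}

lemma blk_nonempty (h : Plane P L I q) (v : P) (l : L) : (blk I v l).Nonempty := by
  classical
  have h1 : 1 < (univ.filter fun p => I p l).card := by
    have := card_on h l
    have := h.two
    omega
  obtain ⟨u, hu, huv⟩ := Finset.exists_mem_ne h1 v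
  exact ⟨u, by simpa using hu, huv⟩

lemma blk_inj (h : Plane P L I q) {v : P} {l m : L} (hl : I v l) (hm : I v m)
    (hlm : blk I v l = blk I v m) : l = m := by
  obtain ⟨u, hu⟩ := blk_nonempty h v l
  have hu' : u ∈ blk I v m := hlm ▸ hu
  rcases h.uniq v u l m hl hu.1 hm hu'.1 with h1 | h1
  · exact absurd h1.symm hu.2
  · exact h1

lemma partition (h : Plane P L I q) : IsPartitionFamily (⊤ : SimpleGraph P) (blocks I) := by
  intro v
  refine ⟨?_, ?_, ?_⟩
  · rintro A ⟨l, _, rfl⟩
    exact blk_nonempty h v l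
  · rintro A ⟨l, hl, rfl⟩ B ⟨m, hm, rfl⟩ hAB
    rw [Set.disjoint_left]
    intro u hu hu'
    rcases h.uniq v u l m hl hu.1 hm hu'.1 with h1 | h1
    · exact hu.2 h1.symm
    · exact hAB (by rw [h1])
  · ext u
    rw [SimpleGraph.mem_neighborSet, SimpleGraph.top_adj, Set.mem_sUnion]
    constructor
    · rintro ⟨A, ⟨l, _, rfl⟩, hu⟩
      exact hu.2.symm
    · intro huv
      obtain ⟨l, h1, h2⟩ := h.join v u
      exact ⟨blk I v l, ⟨l, h1, rfl⟩, h2, huv.symm⟩

/-- flags as vertices of the corona -/
def mk (v : P) (l : L) (h : I v l) : {x : P × Set P // x.2 ∈ blocks I x.1} :=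
  ⟨(v, blk I v l), l, h, rfl⟩

omit [Fintype P] [Fintype L] in
lemma exists_mk (a : {x : P × Set P // x.2 ∈ blocks I x.1}) :
    ∃ l, ∃ h : I a.1.1 l, a = mk a.1.1 l h := by
  obtain ⟨⟨v, A⟩, l, h, hA⟩ := a
  simp only at h hA
  subst hA
  exact ⟨l, h, rfl⟩

lemma adj_mk (h : Plane P L I q) {v u : P} {l m : L} (hv : I v l) (hu : I u m) :
    (corona (⊤ : SimpleGraph P) (blocks I)).Adj (.inr (mk v l hv)) (.inr (mk u m hu)) ↔
      v ≠ u ∧ l = m := by
  constructor
  · rintro ⟨h1, h2, h3⟩
    have h2' : u ∈ blk I v l := h2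
    have h3' : v ∈ blk I u m := h3
    have h4 : v ≠ u := h1
    refine ⟨h4, ?_⟩
    rcases h.uniq v u l m hv h2'.1 h3'.1 hu with h5 | h5
    · exact absurd h5 h4
    · exact h5
  · rintro ⟨h1, rfl⟩
    exact ⟨h1, ⟨hu, h1.symm⟩, hv, h1⟩

lemma main (h : Plane P L I q) (D : Finset (P ⊕ {x : P × Set P // x.2 ∈ blocks I x.1}))
    (hD : IsAccurate (corona (⊤ : SimpleGraph P) (blocks I)) D) :
    Fintype.card P + q ≤ D.card := by
  classical
  have hfin : Fintype {x : P × Set P // x.2 ∈ blocks I x.1} := Fintype.ofFinite _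
  by_contra hlt
  push Not at hlt
  set X : Finset P := univ.filter fun v => Sum.inl v ∈ D with hXdef
  set F : Finset (P × L) := univ.filter fun f => ∃ hf : I f.1 f.2, Sum.inr (mk f.1 f.2 hf) ∈ D
    with hFdef
  have hXm : ∀ v, v ∈ X ↔ Sum.inl v ∈ D := by intro v; simp [X]
  have hFm : ∀ v l, (v, l) ∈ F ↔ ∃ hf : I v l, Sum.inr (mk v l hf) ∈ D := by
    intro v l; simp [F]
  have hdom := hD.1
  have h1 : ∀ v, v ∉ X → ∃ l, (v, l) ∈ F := by
    intro v hv
    rw [hXm] at hv
    obtain ⟨d, hd, hadj⟩ := hdom _ hv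
    rcases d with u | a
    · exact absurd hadj (by intro h'; exact h')
    · have ha : a.1.1 = v := hadj
      obtain ⟨l, hl, hal⟩ := exists_mk a
      subst ha
      refine ⟨l, (hFm _ _).2 ⟨hl, ?_⟩⟩
      rw [← hal]
      exact hd
  have h2 : ∀ l, (∃ v, (v, l) ∈ F) ∨ ∀ v, I v l → v ∈ X := by
    intro l
    by_cases hl : ∃ v, (v, l) ∈ F
    · exact Or.inl hl
    · right
      push Not at hl
      intro v hv
      have h3 : Sum.inr (mk v l hv) ∉ D := fun h4 => hl v ((hFm _ _).2 ⟨hv, h4⟩)
      obtain ⟨d, hd, hadj⟩ := hdom _ h3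
      rcases d with u | a
      · have hu : v = u := hadj
        rw [hXm, hu]
        exact hd
      · obtain ⟨m, hm, ham⟩ := exists_mk a
        rw [ham] at hadj hd
        obtain ⟨_, h5⟩ := (adj_mk h hm hv).1 hadj
        subst h5
        exact absurd ((hFm _ _).2 ⟨hm, hd⟩) (hl _)
  have hcard : X.card + F.card ≤ D.card := by
    have e1 : (X.image Sum.inl : Finset (P ⊕ {x : P × Set P // x.2 ∈ blocks I x.1})).card =
        X.card := Finset.card_image_of_injective _ Sum.inl_injective
    have e2 : ∀ f : P × L, ∃ w : P ⊕ {x : P × Set P // x.2 ∈ blocks I x.1},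
        f ∈ F → ∃ hf : I f.1 f.2, w = Sum.inr (mk f.1 f.2 hf) ∧ w ∈ D := by
      intro f
      by_cases hf : f ∈ F
      · obtain ⟨hf1, hf2⟩ := (hFm f.1 f.2).1 hf
        exact ⟨_, fun _ => ⟨hf1, rfl, hf2⟩⟩
      · exact ⟨Sum.inl f.1, fun h' => absurd h' hf⟩
    choose g hg using e2
    have e3 : (F.image g).card = F.card := by
      refine Finset.card_image_of_injOn ?_
      intro f hf f' hf' hff
      obtain ⟨i1, j1, _⟩ := hg f hf
      obtain ⟨i2, j2, _⟩ := hg f' hf'
      rw [j1, j2] at hff
      have h3 := congrArg Subtype.val (Sum.inr_injective hff)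
      have h4 : f.1 = f'.1 := by
        have := congrArg Prod.fst h3
        exact this
      have h5 : blk I f.1 f.2 = blk I f'.1 f'.2 := by
        have := congrArg Prod.snd h3
        exact this
      rw [← h4] at h5 i2
      exact Prod.ext h4 (blk_inj h i1 i2 h5)
    rw [← e1, ← e3, ← Finset.card_union_of_disjoint]
    · apply Finset.card_le_card
      intro w hw
      rw [Finset.mem_union] at hw
      rcases hw with hw | hw
      · obtain ⟨v, hv, rfl⟩ := Finset.mem_image.1 hw
        exact (hXm v).1 hv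
      · obtain ⟨f, hf, rfl⟩ := Finset.mem_image.1 hw
        obtain ⟨_, _, j⟩ := hg f hf
        exact j
    · rw [Finset.disjoint_left]
      intro w hw hw'
      obtain ⟨v, _, rfl⟩ := Finset.mem_image.1 hw
      obtain ⟨f, hf, hfw⟩ := Finset.mem_image.1 hw'
      obtain ⟨_, j, _⟩ := hg f hf
      rw [hfw] at j
      exact absurd j (by simp)
  obtain ⟨f, hfb, hf⟩ := exists_matching h X F (fun f hf => ((hFm f.1 f.2).1 hf).1) h1 h2
    (by omega)
  -- the dominating set of flags
  let D0 : Finset (P ⊕ {x : P × Set P // x.2 ∈ blocks I x.1}) :=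
    univ.image fun v => Sum.inr (mk v (f v) (hf v).1)
  have hD0card : D0.card = Fintype.card P := by
    show (univ.image _).card = _
    rw [Finset.card_image_of_injective, Finset.card_univ]
    intro v v' hvv
    exact congrArg (fun x => x.1.1) (Sum.inr_injective hvv)
  have hD0dom : IsDominating (corona (⊤ : SimpleGraph P) (blocks I)) D0 := by
    intro w hw
    rcases w with v | a
    · exact ⟨Sum.inr (mk v (f v) (hf v).1), Finset.mem_image_of_mem _ (Finset.mem_univ v), rfl⟩
    · obtain ⟨l, hl, hal⟩ := exists_mk a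
      rw [hal] at hw ⊢
      obtain ⟨u, rfl⟩ := hfb.2 l
      refine ⟨Sum.inr (mk u (f u) (hf u).1), Finset.mem_image_of_mem _ (Finset.mem_univ u), ?_⟩
      rw [adj_mk h]
      refine ⟨?_, rfl⟩
      intro huv
      apply hw
      refine Finset.mem_image.2 ⟨u, Finset.mem_univ u, ?_⟩
      congr 1
      subst huv
      rfl
  have hD0disj : D0 ⊆ Dᶜ := by
    intro w hw
    obtain ⟨v, _, rfl⟩ := Finset.mem_image.1 hw
    rw [Finset.mem_compl]
    intro h3
    exact (hf v).2 ((hFm _ _).2 ⟨(hf v).1, h3⟩)
  have hnD : Fintype.card P ≤ D.card := by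
    have e1 : (univ : Finset P) ⊆ D.image (Sum.elim id fun a => a.1.1) := by
      intro v _
      rw [Finset.mem_image]
      by_cases hv : Sum.inl v ∈ D
      · exact ⟨_, hv, rfl⟩
      · obtain ⟨d, hd, hadj⟩ := hdom _ hv
        rcases d with u | a
        · exact absurd hadj (by intro h'; exact h')
        · exact ⟨_, hd, hadj⟩
    have e2 := Finset.card_le_card e1
    rw [Finset.card_univ] at e2
    exact e2.trans Finset.card_image_le
  have hW : Fintype.card P * (q + 2) ≤
      Fintype.card (P ⊕ {x : P × Set P // x.2 ∈ blocks I x.1}) := by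
    rw [Fintype.card_sum]
    have e1 : Fintype.card {f : P × L // I f.1 f.2} ≤
        Fintype.card {x : P × Set P // x.2 ∈ blocks I x.1} := by
      refine Fintype.card_le_of_injective (fun f => mk f.1.1 f.1.2 f.2) ?_
      rintro ⟨⟨v, l⟩, hl⟩ ⟨⟨u, m⟩, hm⟩ hff
      have h3 := congrArg Subtype.val hff
      have h4 : v = u := congrArg Prod.fst h3
      subst h4
      have h5 : blk I v l = blk I v m := congrArg Prod.snd h3
      have h6 := blk_inj h hl hm h5
      subst h6
      rfl
    have e2 : Fintype.card {f : P × L // I f.1 f.2} = Fintype.card P * (q + 1) := by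
      rw [Fintype.card_subtype, Finset.card_filter, ← Finset.univ_product_univ,
        Finset.sum_product]
      simp_rw [← Finset.card_filter]
      rw [Finset.sum_congr rfl fun v _ => card_thru h v, Finset.sum_const, smul_eq_mul,
        Finset.card_univ]
    have e3 : Fintype.card P * (q + 2) = Fintype.card P + Fintype.card P * (q + 1) := by ring
    omega
  have hcompl := Finset.card_add_card_compl D
  have hn2 : 2 ≤ Fintype.card P := by
    have l : L := f (Classical.choice (Fintype.card_pos_iff.1 (by
      by_contra h0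
      have h0' : Fintype.card P = 0 := by omega
      have hP : IsEmpty P := Fintype.card_eq_zero_iff.1 h0'
      have hL : IsEmpty L := Fintype.card_eq_zero_iff.1 (h.card_eq ▸ h0')
      have hW0 : D.card = 0 := by
        rw [Finset.card_eq_zero, Finset.eq_empty_iff_forall_notMem]
        intro w _
        rcases w with v | a
        · exact hP.elim v
        · exact hP.elim a.1.1
      exact hD.2 D (by rw [Finset.card_eq_zero.1 hW0]; exact Finset.disjoint_empty_left _) rfl
        hdom)))
    have h3 := card_on h l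
    have h4 : (univ.filter fun p => I p l).card ≤ Fintype.card P := Finset.card_le_univ _
    have := h.two
    omega
  have hDc : D.card ≤ Dᶜ.card := by
    have h3 : Fintype.card P * (q + 2) = Fintype.card P * q + 2 * Fintype.card P := by ring
    have h4 : 2 * q ≤ Fintype.card P * q := Nat.mul_le_mul_right _ hn2
    omega
  obtain ⟨D', h3, h4, h5⟩ := Finset.exists_subsuperset_card_eq hD0disj (hD0card ▸ hnD) hDc
  refine hD.2 D' ?_ h5 ?_
  · rw [Finset.disjoint_left]
    intro w hw
    exact Finset.mem_compl.1 (h4 hw)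
  · intro w hw
    obtain ⟨d, hd, hadj⟩ := hD0dom w (fun h6 => hw (h3 h6))
    exact ⟨d, h3 hd, hadj⟩

lemma lt_accDomNum (h : Plane P L I q) (hP : Nonempty P) :
    Fintype.card P + q ≤ accDomNum (corona (⊤ : SimpleGraph P) (blocks I)) := by
  classical
  have hfin : Fintype {x : P × Set P // x.2 ∈ blocks I x.1} := Fintype.ofFinite _
  unfold accDomNum
  refine le_csInf ?_ ?_
  · refine ⟨_, univ, ⟨fun w hw => absurd (Finset.mem_univ w) hw, ?_⟩, rfl⟩
    intro D' hD' hc _
    rw [Finset.disjoint_left] at hD'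
    have h0 : D' = ∅ := Finset.eq_empty_of_forall_notMem fun w hw => hD' hw (Finset.mem_univ w)
    rw [h0, Finset.card_empty] at hc
    obtain ⟨v⟩ := hP
    have : (univ : Finset (P ⊕ {x : P × Set P // x.2 ∈ blocks I x.1})).Nonempty :=
      ⟨Sum.inl v, Finset.mem_univ _⟩
    rw [← Finset.card_pos] at this
    omega
  · rintro n ⟨D, hD, rfl⟩
    exact main h D hD

end Plane

open Configuration Configuration.ProjectivePlane in
/-- projective planes over finite fields -/
lemma exists_plane (k : ℕ) : ∃ (P : Type) (_ : Fintype P) (I : P → P → Prop) (q : ℕ),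
    k < q ∧ Nonempty P ∧ Plane P P I q := by
  classical
  obtain ⟨p, hkp, hp⟩ := Nat.exists_infinite_primes (k + 1)
  have : Fact p.Prime := ⟨hp⟩
  let K := ZMod p
  let V := Projectivization K (Fin 3 → K)
  haveI : Fintype V := Fintype.ofFinite V
  have hord : order V V = p := by
    have h1 : Fintype.card V = order V V ^ 2 + order V V + 1 := card_points (P := V) (L := V)
    have h2 : Nat.card V = ∑ i ∈ Finset.range 3, Nat.card K ^ i :=
      Projectivization.card_of_finrank K (Fin 3 → K) (by simp)
    rw [Nat.card_eq_fintype_card, h1, Nat.card_zmod] at h2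
    simp only [Finset.sum_range_succ, Finset.sum_range_zero] at h2
    nlinarith [h2]
  refine ⟨V, inferInstance, fun v l => v ∈ l, p, by omega, ?_, ?_⟩
  · have h1 : Fintype.card V = order V V ^ 2 + order V V + 1 := card_points (P := V) (L := V)
    exact Fintype.card_pos_iff.1 (by omega)
  · refine ⟨hp.two_le, ?_, ?_, ?_, ?_, rfl⟩
    · intro v
      have := lineCount_eq (P := V) (L := V) v
      rw [hord] at this
      exact this
    · intro l
      have := pointCount_eq (P := V) (L := V) l
      rw [hord] at this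
      exact this
    · intro v v' l l' h1 h2 h3 h4
      exact Nondegenerate.eq_or_eq h1 h2 h3 h4
    · intro v v'
      by_cases hvv : v = v'
      · subst hvv
        have h1 := two_lt_lineCount (P := V) (L := V) v
        have h2 : 0 < Nat.card {l : V // v ∈ l} := by
          have : lineCount V v = Nat.card {l : V // v ∈ l} := rfl
          omega
        obtain ⟨⟨l, hl⟩⟩ := (Nat.card_pos_iff.1 h2).1
        exact ⟨l, hl, hl⟩
      · exact ⟨_, HasLines.mkLine_ax (L := V) hvv⟩

/-- There is no `k` with `γ_a(G ∘ Q) ≤ |V_G| + k` for all finite graphs `G` and all families `Q`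
of partitions of the neighbourhoods. -/
theorem result : ¬ ∃ k : ℕ, ∀ (V : Type) [Fintype V] (G : SimpleGraph V) (Q : V → Set (Set V)),
    IsPartitionFamily G Q → accDomNum (corona G Q) ≤ Fintype.card V + k := by
  rintro ⟨k, hk⟩
  obtain ⟨P, _, I, q, hkq, hP, h⟩ := exists_plane k
  have h1 := hk P ⊤ (blocks I) (partition h)
  have h2 := lt_accDomNum h hP
  omega

end Pool.Agent.Results.MP_a24849_co.Unbounded
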